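import Pool.Agent.H53.AEG.Glue

/-!
The counterexample `d = 6`, `v = 9` of MP_ae97ec_co: the reduction of `H53/AEG/Glue.lean`, stated for
one complex on 18 vertices.
-/

set_option autoImplicit false

namespace Pool.Agent.H55.NS

open H40.VT H23.LZ Pool.Agent.H53.AEG

/-- There is no complex on `Fin 18` with the required properties. -/
theorem key
    (c18 : ∀ K : Finset (Finset (Fin 18)), Hyp K α9 →
      (∀ σ : Finset (Fin 18), σ ∈ K ↔ σ.image (fun i => i + 1) ∈ K) → False)
    (c33 : ∀ K : Finset (Finset (Fin 18)), Hyp K α9 →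
      (∀ σ : Finset (Fin 18), σ ∈ K ↔ σ.image a1 ∈ K) →
      (∀ σ : Finset (Fin 18), σ ∈ K ↔ σ.image a2 ∈ K) → False)
    (K : Finset (Finset (Fin 18))) (ι : Equiv.Perm (Fin 18))
    (hdown : ∀ σ ∈ K, ∀ τ : Finset (Fin 18), τ ⊆ σ → τ ∈ K)
    (hvert : ∀ i : Fin 18, ({i} : Finset (Fin 18)) ∈ K)
    (hsph : Nonempty (↥(Re K) ≃ₜ Metric.sphere (0 : EuclideanSpace ℝ (Fin 6)) 1))
    (hι2 : ∀ i, ι (ι i) = i) (hιf : ∀ i, ι i ≠ i) (hιK : ∀ σ ∈ K, σ.image ι ∈ K)
    (hιn : ∀ σ ∈ K, σ.Nonempty → σ.image ι ≠ σ)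
    (h3 : ∀ τ : Finset (Fin 18), τ.card = 3 → (∀ i ∈ τ, ι i ∉ τ) → τ ∈ K)
    (htr : ∀ a b : Fin 18, ∃ g : Equiv.Perm (Fin 18), g a = b ∧
      ∀ σ : Finset (Fin 18), σ ∈ K ↔ σ.image g ∈ K) : False := by
  classical
  obtain ⟨e, K', hK, hK', hanti, hα, hor⟩ := group_part' K hdown ι hι2 hιf hιK hιn h3 htr
  have hdown' : DC K' := by
    intro σ hσ τ hτ
    rw [hK'] at hσ ⊢
    exact hdown _ hσ _ (Finset.image_subset_image hτ)
  have hyp : Hyp K' α9 := by
    refine ⟨⟨hdown', ?_, ?_⟩, ?_, ?_, ?_, ?_, ?_⟩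
    · rw [hK', Finset.image_empty]
      exact hdown _ (hvert 0) _ (Finset.empty_subset _)
    · obtain ⟨φ⟩ := hsph
      obtain ⟨ψ⟩ := re_relabel e K K' hK hK'
      exact ⟨ψ.trans φ⟩
    · decide
    · decide
    · exact hα
    · intro σ hσ i hi hi9
      have hp : ({i, α9 i} : Finset (Fin 18)) ∈ K' := by
        refine hdown' σ hσ _ ?_
        intro x hx
        rw [Finset.mem_insert, Finset.mem_singleton] at hx
        rcases hx with rfl | rfl
        · exact hi
        · exact hi9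
      rw [hK'] at hp
      obtain ⟨j, rfl⟩ := e.surjective i
      have h9 : α9 (e j) = e (ι j) := (hanti j).symm
      rw [h9, Finset.image_insert, Finset.image_singleton, Equiv.symm_apply_apply,
        Equiv.symm_apply_apply] at hp
      refine hιn _ hp ⟨j, Finset.mem_insert_self _ _⟩ ?_
      rw [Finset.image_insert, Finset.image_singleton, hι2]
      exact Finset.pair_comm _ _
    · intro τ hτ hn
      rw [hK']
      refine h3 _ ?_ ?_
      · rw [Finset.card_image_of_injective _ e.symm.injective, hτ]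
      · intro i hi hi'
        rw [Finset.mem_image] at hi hi'
        obtain ⟨a, ha, rfl⟩ := hi
        obtain ⟨b, hb, hb'⟩ := hi'
        refine hn a ha ?_
        have h1 := hanti (e.symm a)
        rw [← hb', Equiv.apply_symm_apply, Equiv.apply_symm_apply] at h1
        rw [α9_apply, ← h1]
        exact hb
  rcases hor with h | ⟨h1, h2⟩
  · exact c18 K' hyp h
  · exact c33 K' hyp h1 h2

end Pool.Agent.H55.NS
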