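import Pool.Agent.H55.NS.Key

/-!
Transport of a complex on a type with 18 elements to a family of subsets of `Fin 18`.
-/

set_option autoImplicit false

universe u

namespace Pool.Agent.H55.NS

open H40.VT

variable {V : Type u} [Fintype V]

/-- the faces, as subsets of `Fin 18`, with the empty set added -/
noncomputable def fam (K : AbstractSimplicialComplex V) (e : V ≃ Fin 18) :
    Finset (Finset (Fin 18)) := by
  classical
  exact Finset.univ.filter fun σ => σ = ∅ ∨ σ.map e.symm.toEmbedding ∈ K.faces

theorem mem_fam {K : AbstractSimplicialComplex V} {e : V ≃ Fin 18} {σ : Finset (Fin 18)} :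
    σ ∈ fam K e ↔ σ = ∅ ∨ σ.map e.symm.toEmbedding ∈ K.faces := by
  classical
  unfold fam
  simp

theorem face_down {K : AbstractSimplicialComplex V} {F G : Finset V} (hF : F ∈ K.faces)
    (hG : G ⊆ F) (hn : G.Nonempty) : G ∈ K.faces :=
  (K.isRelLowerSet_faces hF).2 hG hn

theorem fam_down {K : AbstractSimplicialComplex V} {e : V ≃ Fin 18} :
    ∀ σ ∈ fam K e, ∀ τ : Finset (Fin 18), τ ⊆ σ → τ ∈ fam K e := by
  intro σ hσ τ hτ
  rw [mem_fam] at hσ ⊢
  rcases τ.eq_empty_or_nonempty with h | h
  · exact Or.inl h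
  · right
    rcases hσ with hσ | hσ
    · exact absurd (Finset.subset_empty.1 (hσ ▸ hτ)) h.ne_empty
    · exact face_down hσ (Finset.map_subset_map.2 hτ) (h.map)

theorem fam_vert {K : AbstractSimplicialComplex V} {e : V ≃ Fin 18} (i : Fin 18) :
    ({i} : Finset (Fin 18)) ∈ fam K e := by
  rw [mem_fam]
  right
  rw [Finset.map_singleton]
  exact K.singleton_mem _

/-- The realization of the family is homeomorphic to the realization of `K` in barycentric
coordinates. -/
theorem re_homeo (K : AbstractSimplicialComplex V) (e : V ≃ Fin 18) :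
    Nonempty (↥(Re (fam K e)) ≃ₜ
      ↥{x : V → ℝ | (∀ v, 0 ≤ x v) ∧ ∑ v, x v = 1 ∧ ∃ F ∈ K.faces, ∀ v, v ∈ F ↔ x v ≠ 0}) := by
  classical
  have h1 : ∀ x : ↥(Re (fam K e)), (fun v => x.1 (e v)) ∈
      {x : V → ℝ | (∀ v, 0 ≤ x v) ∧ ∑ v, x v = 1 ∧ ∃ F ∈ K.faces, ∀ v, v ∈ F ↔ x v ≠ 0} := by
    intro x
    obtain ⟨σ, hσ, h0, hs, hsup⟩ := mem_Re.1 x.2
    refine ⟨fun v => h0 _, ?_, ?_⟩
    · rw [← hs]
      exact Equiv.sum_comp e fun i => x.1 i
    · set S : Finset (Fin 18) := Finset.univ.filter fun i => x.1 i ≠ 0 with hS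
      have hSn : S.Nonempty := by
        by_contra hcon
        rw [Finset.not_nonempty_iff_eq_empty] at hcon
        have : ∑ i, x.1 i = 0 := by
          apply Finset.sum_eq_zero
          intro i _
          by_contra hi
          have : i ∈ S := by rw [hS]; simpa using hi
          rw [hcon] at this
          exact absurd this (Finset.notMem_empty i)
        rw [this] at hs
        exact zero_ne_one hs
      have hSK : S ∈ fam K e := fam_down σ hσ S (by
        intro i hi
        rw [hS, Finset.mem_filter] at hi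
        exact hsup i hi.2)
      rw [mem_fam] at hSK
      rcases hSK with h | h
      · exact absurd h hSn.ne_empty
      · refine ⟨_, h, fun v => ?_⟩
        rw [Finset.mem_map]
        constructor
        · rintro ⟨i, hi, rfl⟩
          rw [hS, Finset.mem_filter] at hi
          simpa using hi.2
        · intro hv
          exact ⟨e v, by rw [hS]; simpa using hv, by simp⟩
  have h2 : ∀ y : ↥{x : V → ℝ | (∀ v, 0 ≤ x v) ∧ ∑ v, x v = 1 ∧
      ∃ F ∈ K.faces, ∀ v, v ∈ F ↔ x v ≠ 0},
      WithLp.toLp 2 (fun i => y.1 (e.symm i)) ∈ Re (fam K e) := by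
    intro y
    obtain ⟨h0, hs, F, hF, hFy⟩ := y.2
    refine mem_Re.2 ⟨F.map e.toEmbedding, ?_, fun i => h0 _, ?_, fun i hi => ?_⟩
    · rw [mem_fam]
      right
      rw [Finset.map_map]
      have : e.toEmbedding.trans e.symm.toEmbedding = Function.Embedding.refl V := by
        ext v
        simp
      rw [this, Finset.map_refl]
      exact hF
    · exact (Equiv.sum_comp e.symm fun v => y.1 v).trans hs
    · rw [Finset.mem_map]
      exact ⟨e.symm i, (hFy _).2 hi, by simp⟩
  refine ⟨{ toFun := fun x => ⟨_, h1 x⟩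
            invFun := fun y => ⟨_, h2 y⟩
            left_inv := ?_
            right_inv := ?_
            continuous_toFun := ?_
            continuous_invFun := ?_ }⟩
  · intro x
    apply Subtype.ext
    ext i
    simp
  · intro y
    apply Subtype.ext
    funext v
    simp
  · refine Continuous.subtype_mk ?_ _
    refine continuous_pi fun v => ?_
    have : Continuous fun x : EuclideanSpace ℝ (Fin 18) => x (e v) := by fun_prop
    exact this.comp continuous_subtype_val
  · refine Continuous.subtype_mk ?_ _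
    refine (PiLp.continuous_toLp 2 _).comp ?_
    refine continuous_pi fun i => ?_
    exact (continuous_apply (e.symm i)).comp continuous_subtype_val

/-- a permutation of the vertices, on `Fin 18` -/
def conj (e : V ≃ Fin 18) (g : Equiv.Perm V) : Equiv.Perm (Fin 18) := (e.symm.trans g).trans e

theorem conj_apply (e : V ≃ Fin 18) (g : Equiv.Perm V) (i : Fin 18) :
    conj e g i = e (g (e.symm i)) := rfl

theorem image_conj (e : V ≃ Fin 18) (g : Equiv.Perm V) (σ : Finset (Fin 18)) :
    (σ.image (conj e g)).map e.symm.toEmbedding =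
      (σ.map e.symm.toEmbedding).map g.toEmbedding := by
  classical
  ext v
  simp only [Finset.mem_map, Finset.mem_image, exists_exists_and_eq_and, conj_apply,
    Equiv.coe_toEmbedding, Equiv.symm_apply_apply]

/-- A permutation of the vertices of a finite complex which maps faces to faces maps non-faces to
non-faces. -/
theorem aut_iff {K : AbstractSimplicialComplex V} {g : Equiv.Perm V}
    (hg : ∀ F ∈ K.faces, F.map g.toEmbedding ∈ K.faces) (F : Finset V) :
    F ∈ K.faces ↔ F.map g.toEmbedding ∈ K.faces := by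
  classical
  have hpow : ∀ n : ℕ, ∀ F ∈ K.faces, F.map (g ^ n : Equiv.Perm V).toEmbedding ∈ K.faces := by
    intro n
    induction n with
    | zero =>
      intro F hF
      have : (g ^ 0 : Equiv.Perm V).toEmbedding = Function.Embedding.refl V := by
        ext v
        simp
      rw [this, Finset.map_refl]
      exact hF
    | succ n ih =>
      intro F hF
      have : (g ^ (n + 1) : Equiv.Perm V).toEmbedding =
          (g.toEmbedding).trans (g ^ n : Equiv.Perm V).toEmbedding := by
        ext v
        simp [pow_succ]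
      rw [this, ← Finset.map_map]
      exact ih _ (hg _ hF)
  refine ⟨hg F, fun h => ?_⟩
  have h1 := hpow (orderOf g - 1) _ h
  have hpos : 0 < orderOf g := orderOf_pos g
  have h2 : g.toEmbedding.trans (g ^ (orderOf g - 1) : Equiv.Perm V).toEmbedding =
      Function.Embedding.refl V := by
    ext v
    have h3 : g ^ (orderOf g - 1) * g = 1 := by
      rw [← pow_succ, Nat.sub_add_cancel hpos, pow_orderOf_eq_one]
    have h4 := congrArg (fun f : Equiv.Perm V => f v) h3
    simpa using h4
  rw [Finset.map_map, h2, Finset.map_refl] at h1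
  exact h1

open Pool.Agent.H53.AEG H23.LZ in
/-- There is no complex with the required properties on a type with 18 elements. -/
theorem main
    (c18 : ∀ K : Finset (Finset (Fin 18)), Hyp K α9 →
      (∀ σ : Finset (Fin 18), σ ∈ K ↔ σ.image (fun i => i + 1) ∈ K) → False)
    (c33 : ∀ K : Finset (Finset (Fin 18)), Hyp K α9 →
      (∀ σ : Finset (Fin 18), σ ∈ K ↔ σ.image a1 ∈ K) →
      (∀ σ : Finset (Fin 18), σ ∈ K ↔ σ.image a2 ∈ K) → False)
    (hV : Fintype.card V = 18) (K : AbstractSimplicialComplex V)
    (hsph : Nonempty (↥{x : V → ℝ | (∀ v, 0 ≤ x v) ∧ ∑ v, x v = 1 ∧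
      ∃ F ∈ K.faces, ∀ v, v ∈ F ↔ x v ≠ 0} ≃ₜ
        Metric.sphere (0 : EuclideanSpace ℝ (Fin 6)) 1))
    (α : Equiv.Perm V) (hα2 : ∀ v, α (α v) = v)
    (hαK : ∀ F ∈ K.faces, F.map α.toEmbedding ∈ K.faces)
    (hαn : ∀ F ∈ K.faces, F.map α.toEmbedding ≠ F)
    (h3 : ∀ F : Finset V, F.card = 3 → (∀ v ∈ F, α v ∉ F) → F ∈ K.faces)
    (htr : ∀ a b : V, ∃ g : Equiv.Perm V, (∀ F ∈ K.faces, F.map g.toEmbedding ∈ K.faces) ∧
      g a = b) : False := by
  classical
  let e : V ≃ Fin 18 := Fintype.equivFinOfCardEq hV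
  refine key c18 c33 (fam K e) (conj e α) fam_down fam_vert ?_ ?_ ?_ ?_ ?_ ?_ ?_
  · obtain ⟨φ⟩ := hsph
    obtain ⟨ψ⟩ := re_homeo K e
    exact ⟨ψ.trans φ⟩
  · intro i
    simp [conj_apply, hα2]
  · intro i h
    rw [conj_apply] at h
    have h1 : α (e.symm i) = e.symm i := by
      apply e.injective
      rw [h]
      simp
    apply hαn _ (K.singleton_mem (e.symm i))
    rw [Finset.map_singleton]
    simp [h1]
  · intro σ hσ
    rw [mem_fam] at hσ ⊢
    rcases hσ with h | h
    · left
      rw [h, Finset.image_empty]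
    · right
      rw [image_conj]
      exact hαK _ h
  · intro σ hσ hn h
    rw [mem_fam] at hσ
    rcases hσ with h1 | h1
    · exact hn.ne_empty h1
    · apply hαn _ h1
      rw [← image_conj, h]
  · intro τ hτ hn
    rw [mem_fam]
    right
    refine h3 _ (by rw [Finset.card_map, hτ]) ?_
    intro v hv hv'
    rw [Finset.mem_map] at hv hv'
    obtain ⟨i, hi, rfl⟩ := hv
    obtain ⟨j, hj, hj'⟩ := hv'
    refine hn i hi ?_
    have : conj e α i = j := by
      rw [conj_apply]
      have : e.symm j = α (e.symm i) := hj'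
      rw [← this]
      simp
    rw [this]
    exact hj
  · intro a b
    obtain ⟨g, hg, hab⟩ := htr (e.symm a) (e.symm b)
    refine ⟨conj e g, by rw [conj_apply, hab]; simp, fun σ => ?_⟩
    rw [mem_fam, mem_fam, image_conj, ← aut_iff hg, Finset.image_eq_empty]

end Pool.Agent.H55.NS
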